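import Pool.Agent.H832R2.JR.Values

set_option autoImplicit false

/-!
# The number of curves of a state and the interlacement matrix over `ZMod 2`
-/

namespace Pool.Agent.H124R3.OW

open Pool.Agent.H832R2.JR Finset

variable {N : ℕ}

/-- functions on a quotient are functions constant on the classes -/
def quotEquiv {H : Type} (r : H → H → Prop) (K : Type) :
    (Quot r → K) ≃ {c : H → K // ∀ x y, r x y → c x = c y} where
  toFun f := ⟨fun x => f (Quot.mk r x), fun _ _ h => congrArg f (Quot.sound h)⟩
  invFun c := Quot.lift c.1 c.2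
  left_inv f := by
    funext q
    induction q using Quot.ind
    rfl
  right_inv c := rfl

/-- the sum of the jumps at the passages before the place `m` -/
def pre (G : GaussWord N) (x : Fin N → ZMod 2) (m : ℕ) : ZMod 2 :=
  ∑ p : Fin N × Bool, if (G p : ℕ) < m then x p.1 else 0

/-- the interlacement form: the sum of the jumps of the chords crossing the chord `k` -/
noncomputable def q (G : GaussWord N) (x : Fin N → ZMod 2) (k : Fin N) : ZMod 2 := by
  classical
  exact ∑ j, if Crosses G k j then x j else 0

theorem two_zero (a : ZMod 2) : a + a = 0 := by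
  revert a; decide

theorem z1 : ∀ a b c : ZMod 2, a + b + c = 0 → a = b + c := by decide
theorem z1' : ∀ a b c : ZMod 2, a + b + c = 0 → b = a + c := by decide
theorem z2 : ∀ a b c : ZMod 2, a + b + c = c → a = b := by decide
theorem z3 : ∀ a b : ZMod 2, b = a + (a + b) := by decide
theorem z4 : ∀ a b : ZMod 2, a = b + (a + b) := by decide
theorem z5 : ∀ a b : ZMod 2, a + b + a + b = 0 := by decide

theorem pre_succ (G : GaussWord N) (x : Fin N → ZMod 2) (p : Fin N × Bool) :
    pre G x ((G p : ℕ) + 1) = pre G x (G p) + x p.1 := by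
  unfold pre
  have h : ∀ p' : Fin N × Bool, (if (G p' : ℕ) < (G p : ℕ) + 1 then x p'.1 else 0) =
      (if (G p' : ℕ) < (G p : ℕ) then x p'.1 else 0) + (if p' = p then x p.1 else 0) := by
    intro p'
    by_cases hp : p' = p
    · subst hp; simp
    · have h1 := pos_ne G hp
      have h2 : ((G p' : ℕ) < (G p : ℕ) + 1) ↔ ((G p' : ℕ) < (G p : ℕ)) := by omega
      simp only [h2, hp, if_false, add_zero]
  rw [Finset.sum_congr rfl (fun p' _ => h p'), Finset.sum_add_distrib]
  simp

theorem pre_all (G : GaussWord N) (x : Fin N → ZMod 2) : pre G x (2 * N) = 0 := by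
  unfold pre
  have h : ∀ p : Fin N × Bool, (if (G p : ℕ) < 2 * N then x p.1 else 0) = x p.1 := by
    intro p
    rw [if_pos (G p).2]
  rw [Finset.sum_congr rfl (fun p _ => h p), Fintype.sum_prod_type]
  refine Finset.sum_eq_zero fun k _ => ?_
  rw [Fintype.sum_bool]
  exact two_zero (x k)

theorem pre_zero (G : GaussWord N) (x : Fin N → ZMod 2) : pre G x 0 = 0 := by
  unfold pre
  simp

theorem pre_next (G : GaussWord N) (x : Fin N → ZMod 2) (p : Fin N × Bool) :
    pre G x (G (next G p)) = pre G x (G p) + x p.1 := by
  rw [← pre_succ, next_val]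
  split_ifs with h
  · rw [h, pre_all, pre_zero]
  · rfl

/-- the relation between the values at the two passages of `k` and the crossing chords -/
theorem pre_pair (G : GaussWord N) (x : Fin N → ZMod 2) (k : Fin N) :
    pre G x (G (k, false)) + pre G x (G (k, true)) + x k = q G x k := by
  classical
  unfold pre q
  rw [← Finset.sum_add_distrib, Fintype.sum_prod_type]
  have h : ∀ j : Fin N, (∑ b : Bool, ((if (G (j, b) : ℕ) < (G (k, false) : ℕ) then x j else 0) +
      (if (G (j, b) : ℕ) < (G (k, true) : ℕ) then x j else 0))) =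
      (if Crosses G k j then x j else 0) + (if j = k then x k else 0) := by
    intro j
    by_cases hj : j = k
    · subst hj
      have h1 := pos_ne G (x := (j, false)) (y := (j, true)) (by simp)
      have h2 : ¬ Crosses G j j := not_crosses_self G j
      rw [if_neg h2, if_pos rfl, zero_add]
      have e2 := two_zero (x j)
      rw [Fintype.sum_bool, if_neg (lt_irrefl _), if_neg (lt_irrefl _), add_zero, zero_add]
      rcases Nat.lt_or_gt_of_ne h1 with h3 | h3
      · have h4 : ¬ ((G (j, true) : ℕ) < (G (j, false) : ℕ)) := by omega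
        rw [if_neg h4, if_pos h3, zero_add]
      · have h4 : ¬ ((G (j, false) : ℕ) < (G (j, true) : ℕ)) := by omega
        rw [if_pos h3, if_neg h4, add_zero]
    · have h1 := pos_ne G (x := (k, false)) (y := (j, false)) (by simp [Ne.symm hj])
      have h2 := pos_ne G (x := (k, false)) (y := (j, true)) (by simp [Ne.symm hj])
      have h3 := pos_ne G (x := (k, true)) (y := (j, false)) (by simp [Ne.symm hj])
      have h4 := pos_ne G (x := (k, true)) (y := (j, true)) (by simp [Ne.symm hj])
      have h5 := pos_ne G (x := (k, false)) (y := (k, true)) (by simp)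
      rw [if_neg hj, add_zero]
      have e2 := two_zero (x j)
      rw [Fintype.sum_bool]
      by_cases c1 : (G (j, false) : ℕ) < (G (k, false) : ℕ) <;>
      by_cases c2 : (G (j, true) : ℕ) < (G (k, false) : ℕ) <;>
      by_cases c3 : (G (j, false) : ℕ) < (G (k, true) : ℕ) <;>
      by_cases c4 : (G (j, true) : ℕ) < (G (k, true) : ℕ) <;>
      simp only [c1, c2, c3, c4, if_true, if_false, add_zero, zero_add, e2]
      all_goals first
        | (exfalso; omega)
        | (rw [if_pos (by unfold Crosses Pool.Agent.H832R2.JR.Btw; omega)])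
        | (rw [if_neg (by unfold Crosses Pool.Agent.H832R2.JR.Btw; omega)])
  rw [Finset.sum_congr rfl (fun j _ => h j), Finset.sum_add_distrib]
  simp only [Finset.sum_ite_eq', Finset.mem_univ, if_true]
  rw [add_assoc, two_zero, add_zero]

/-- the value of a colouring at a half edge in terms of the jumps -/
def colOf (G : GaussWord N) (b : ZMod 2) (x : Fin N → ZMod 2) : Half N → ZMod 2
  | (p, false) => b + pre G x (G p)
  | (p, true) => b + pre G x (G p) + x p.1

/-- the condition of the state at a crossing: `u = true` oriented, `u = false` unoriented -/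
def Ok (u : Bool) (y a : ZMod 2) : Prop := if u then y = 0 else y = a

instance (u : Bool) (y a : ZMod 2) : Decidable (Ok u y a) := by
  unfold Ok; infer_instance

theorem colOf_joined (G : GaussWord N) (s : Fin N → Bool) (b : ZMod 2) (x : Fin N → ZMod 2)
    (h : ∀ k, Ok (s k) (q G x k) (x k)) (y z : Half N) (hyz : Joined G s y z) :
    colOf G b x y = colOf G b x z := by
  rcases hyz with ⟨p, rfl, rfl⟩ | ⟨c, e, hs, rfl, rfl⟩ | ⟨c, e, hs, rfl, rfl⟩
  · show b + pre G x (G p) + x p.1 = b + pre G x (G (next G p))
    rw [pre_next, add_assoc]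
  · have h1 := h c
    rw [hs] at h1
    have h2 : q G x c = 0 := h1
    rw [← pre_pair] at h2
    show b + pre G x (G (c, e)) = b + pre G x (G (c, !e)) + x c
    have h3 : pre G x (G (c, e)) = pre G x (G (c, !e)) + x c := by
      cases e
      · exact z1 _ _ _ h2
      · exact z1' _ _ _ h2
    rw [h3, add_assoc]
  · have h1 := h c
    rw [hs] at h1
    have h2 : q G x c = x c := h1
    rw [← pre_pair] at h2
    have h3 : pre G x (G (c, false)) = pre G x (G (c, true)) := z2 _ _ _ h2
    cases e
    · show b + pre G x (G (c, false)) = b + pre G x (G (c, true))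
      rw [h3]
    · show b + pre G x (G (c, false)) + x c = b + pre G x (G (c, true)) + x c
      rw [h3]

/-- the jump of a colouring at a crossing -/
def jump (c : Half N → ZMod 2) (k : Fin N) : ZMod 2 := c ((k, false), false) + c ((k, false), true)

theorem jump_pass (G : GaussWord N) (s : Fin N → Bool) (c : Half N → ZMod 2)
    (h : ∀ x y, Joined G s x y → c x = c y) (k : Fin N) (b : Bool) :
    c ((k, b), true) = c ((k, b), false) + jump c k := by
  unfold jump
  cases hs : s k
  · have h1 := h ((k, false), false) ((k, true), false) (Or.inr (Or.inr ⟨k, false, hs, rfl, rfl⟩))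
    have h2 := h ((k, false), true) ((k, true), true) (Or.inr (Or.inr ⟨k, true, hs, rfl, rfl⟩))
    cases b
    · exact z3 _ _
    · rw [← h1, ← h2]
      exact z3 _ _
  · have h1 := h ((k, false), false) ((k, true), true)
      (Or.inr (Or.inl ⟨k, false, hs, rfl, by simp⟩))
    have h2 := h ((k, true), false) ((k, false), true)
      (Or.inr (Or.inl ⟨k, true, hs, rfl, by simp⟩))
    cases b
    · exact z3 _ _
    · rw [← h1, h2]
      exact z4 _ _

/-- a colouring is determined by its jumps and one value -/
theorem col_eq (G : GaussWord N) (hN : 0 < N) (s : Fin N → Bool) (c : Half N → ZMod 2)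
    (h : ∀ x y, Joined G s x y → c x = c y) :
    c = colOf G (c (G.symm ⟨0, by omega⟩, false)) (jump c) := by
  have key : ∀ m : ℕ, ∀ hm : m < 2 * N, c (G.symm ⟨m, hm⟩, false) =
      c (G.symm ⟨0, by omega⟩, false) + pre G (jump c) m := by
    intro m
    induction m with
    | zero => intro hm; rw [pre_zero, add_zero]
    | succ m ih =>
      intro hm
      have hm' : m < 2 * N := by omega
      have h1 := ih hm'
      have h2 : next G (G.symm ⟨m, hm'⟩) = G.symm ⟨m + 1, hm⟩ := by
        apply G.injective
        apply Fin.ext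
        rw [next_val, Equiv.apply_symm_apply, Equiv.apply_symm_apply]
        simp only
        rw [if_neg (by omega)]
      have h3 := h (G.symm ⟨m, hm'⟩, true) (next G (G.symm ⟨m, hm'⟩), false)
        (Or.inl ⟨_, rfl, rfl⟩)
      rw [h2] at h3
      have h4 := jump_pass G s c h (G.symm ⟨m, hm'⟩).1 (G.symm ⟨m, hm'⟩).2
      rw [Prod.mk.eta] at h4
      have h5 := pre_succ G (jump c) (G.symm ⟨m, hm'⟩)
      rw [Equiv.apply_symm_apply] at h5
      simp only at h5
      rw [← h3, h4, h1, h5, add_assoc]
  have key2 : ∀ p : Fin N × Bool, c (p, false) =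
      c (G.symm ⟨0, by omega⟩, false) + pre G (jump c) (G p) := by
    intro p
    have h1 := key (G p) (G p).2
    rw [show (⟨(G p : ℕ), (G p).2⟩ : Fin (2 * N)) = G p from rfl, Equiv.symm_apply_apply] at h1
    exact h1
  funext y
  rcases y with ⟨p, _ | _⟩
  · exact key2 p
  · show c (p, true) = _ + pre G (jump c) (G p) + jump c p.1
    rw [← key2 p]
    exact jump_pass G s c h p.1 p.2

theorem jump_colOf (G : GaussWord N) (b : ZMod 2) (x : Fin N → ZMod 2) :
    jump (colOf G b x) = x := by
  funext k
  show b + pre G x (G (k, false)) + (b + pre G x (G (k, false)) + x k) = x k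
  rw [← add_assoc, two_zero, zero_add]

theorem ok_of_col (G : GaussWord N) (s : Fin N → Bool) (b : ZMod 2) (x : Fin N → ZMod 2)
    (h : ∀ y z, Joined G s y z → colOf G b x y = colOf G b x z) (k : Fin N) :
    Ok (s k) (q G x k) (x k) := by
  rw [← pre_pair]
  unfold Ok
  cases hs : s k
  · have h1 : b + pre G x (G (k, false)) = b + pre G x (G (k, true)) :=
      h ((k, false), false) ((k, true), false) (Or.inr (Or.inr ⟨k, false, hs, rfl, rfl⟩))
    have h2 := add_left_cancel h1
    simp only [Bool.false_eq_true, if_false]
    rw [h2, two_zero, zero_add]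
  · have h1 : b + pre G x (G (k, false)) = b + pre G x (G (k, true)) + x k :=
      h ((k, false), false) ((k, true), true) (Or.inr (Or.inl ⟨k, false, hs, rfl, by simp⟩))
    rw [add_assoc] at h1
    have h2 := add_left_cancel h1
    simp only [if_true]
    rw [h2]
    exact z5 _ _

/-- **Circuit nullity formula**: `2 ^ loops` is twice the number of solutions of the linear system
of the state. -/
theorem two_pow_loops (G : GaussWord N) (hN : 0 < N) (s : Fin N → Bool) :
    2 ^ loops G s = 2 * ((univ : Finset (Fin N → ZMod 2)).filter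
      (fun x => ∀ k, Ok (s k) (q G x k) (x k))).card := by
  classical
  have e1 : Nat.card (Quot (Joined G s) → ZMod 2) = 2 ^ loops G s := by
    rw [Nat.card_fun, Nat.card_zmod]
    rfl
  rw [← e1, Nat.card_congr (quotEquiv (Joined G s) (ZMod 2))]
  have e2 : {c : Half N → ZMod 2 // ∀ x y, Joined G s x y → c x = c y} ≃
      ZMod 2 × {x : Fin N → ZMod 2 // ∀ k, Ok (s k) (q G x k) (x k)} :=
    { toFun := fun c => (c.1 (G.symm ⟨0, by omega⟩, false), ⟨jump c.1, by
        have h1 := col_eq G hN s c.1 c.2
        intro k
        have h2 := c.2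
        rw [h1] at h2
        exact ok_of_col G s _ _ h2 k⟩)
      invFun := fun z => ⟨colOf G z.1 z.2.1, colOf_joined G s z.1 z.2.1 z.2.2⟩
      left_inv := fun c => Subtype.ext (col_eq G hN s c.1 c.2).symm
      right_inv := fun z => by
        refine Prod.ext ?_ (Subtype.ext (jump_colOf G z.1 z.2.1))
        show z.1 + pre G z.2.1 (G (G.symm ⟨0, by omega⟩)) = z.1
        rw [Equiv.apply_symm_apply]
        simp [pre_zero] }
  rw [Nat.card_congr e2, Nat.card_prod, Nat.card_zmod, Nat.card_eq_fintype_card,
    Fintype.card_subtype]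

end Pool.Agent.H124R3.OW
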