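import Pool.Agent.H124R3.OW.Poly

set_option autoImplicit false

/-!
# The derivative of the f-polynomial at `A = i` is the odd writhe
-/

namespace Pool.Agent.H124R3.OW

open Pool.Agent.H832R2.JR Finset LaurentPolynomial

variable {N : ℕ}

/-- the dual numbers over `ℂ` -/
abbrev Du : Type := TrivSqZeroExt ℂ ℂ

/-- `i ^ k (1 + k ε)` -/
noncomputable def val (k : ℤ) : Du :=
  TrivSqZeroExt.inl (Complex.I ^ k) + TrivSqZeroExt.inr ((k : ℂ) * Complex.I ^ k)

theorem val_zero : val 0 = 1 := by
  unfold val
  simp

theorem val_add (a b : ℤ) : val (a + b) = val a * val b := by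
  unfold val
  rw [zpow_add₀ Complex.I_ne_zero]
  refine TrivSqZeroExt.ext ?_ ?_
  · simp
  · simp
    ring

/-- evaluation at `A = i (1 + ε)` -/
noncomputable def phi : ℤ[T;T⁻¹] →ₐ[ℤ] Du :=
  AddMonoidAlgebra.lift ℤ Du ℤ
    { toFun := fun k => val k.toAdd
      map_one' := val_zero
      map_mul' := fun a b => val_add a.toAdd b.toAdd }

theorem phi_T (k : ℤ) : phi (T k) = val k := by
  unfold phi T
  rw [AddMonoidAlgebra.lift_single, one_smul]
  rfl

theorem phi_snd (f : ℤ[T;T⁻¹]) :
    (phi f).snd = ∑ k ∈ f.coeff.support, (k : ℂ) * (f.coeff k : ℂ) * Complex.I ^ k := by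
  unfold phi
  rw [AddMonoidAlgebra.lift_apply, Finsupp.sum, TrivSqZeroExt.snd_sum]
  refine Finset.sum_congr rfl fun k _ => ?_
  rw [TrivSqZeroExt.snd_smul]
  show (f.coeff k) • (val k).snd = _
  unfold val
  simp
  ring

theorem val_two (b : Bool) : val (-2 * sgn b) =
    TrivSqZeroExt.inl (-1) + TrivSqZeroExt.inr (2 * (sgn b : ℂ)) := by
  unfold val
  cases b
  · rw [show -2 * sgn false = 2 from rfl, show sgn false = -1 from rfl]
    have h : Complex.I ^ (2 : ℤ) = -1 := by
      rw [show (2 : ℤ) = ((2 : ℕ) : ℤ) from rfl, zpow_natCast, Complex.I_sq]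
    rw [h]
    congr 2
    push_cast; ring
  · rw [show -2 * sgn true = -2 from rfl, show sgn true = 1 from rfl]
    have h : Complex.I ^ (-2 : ℤ) = -1 := by
      rw [show (-2 : ℤ) = -((2 : ℕ) : ℤ) from rfl, zpow_neg, zpow_natCast, Complex.I_sq]
      norm_num
    rw [h]
    congr 2
    push_cast; ring

theorem val_four (b : Bool) : val (-4 * sgn b) =
    TrivSqZeroExt.inl 1 + TrivSqZeroExt.inr (-4 * (sgn b : ℂ)) := by
  unfold val
  cases b
  · rw [show -4 * sgn false = 4 from rfl, show sgn false = -1 from rfl]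
    have h : Complex.I ^ (4 : ℤ) = 1 := by
      rw [show (4 : ℤ) = ((4 : ℕ) : ℤ) from rfl, zpow_natCast, Complex.I_pow_four]
    rw [h]
    congr 2
    push_cast; ring
  · rw [show -4 * sgn true = -4 from rfl, show sgn true = 1 from rfl]
    have h : Complex.I ^ (-4 : ℤ) = 1 := by
      rw [show (-4 : ℤ) = -((4 : ℕ) : ℤ) from rfl, zpow_neg, zpow_natCast, Complex.I_pow_four,
        inv_one]
    rw [h]
    congr 2
    push_cast; ring

theorem phi_dl : phi dl = 2 := by
  unfold dl
  rw [map_sub, map_neg, phi_T, phi_T]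
  have h1 := val_two false
  have h2 := val_two true
  rw [show -2 * sgn false = 2 from rfl] at h1
  rw [show -2 * sgn true = -2 from rfl] at h2
  rw [h1, h2, ← one_add_one_eq_two (R := Du)]
  refine TrivSqZeroExt.ext ?_ ?_
  · simp
  · simp [sgn]

/-- value of the factor of a crossing -/
noncomputable def kv (w u : Bool) : Du :=
  if u then TrivSqZeroExt.inl 1 + TrivSqZeroExt.inr (-2 * (sgn w : ℂ))
  else TrivSqZeroExt.inl (-1) + TrivSqZeroExt.inr (4 * (sgn w : ℂ))

theorem phi_kap (w u : Bool) : phi (kap w u) = kv w u := by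
  unfold kap kv
  cases u
  · simp only [Bool.false_eq_true, if_false]
    rw [map_neg, phi_T, val_four]
    refine TrivSqZeroExt.ext ?_ ?_ <;> simp
  · simp only [if_true]
    rw [map_neg, phi_T, val_two]
    refine TrivSqZeroExt.ext ?_ ?_ <;> simp

/-- standard part of the factor of a crossing -/
noncomputable def fa (y a : ZMod 2) : ℂ := if a = 0 then 0 else if y = 0 then 1 else -1
/-- infinitesimal part of the factor of a crossing -/
noncomputable def fb (σ : ℂ) (y a : ZMod 2) : ℂ :=
  if a = 0 then (if y = 0 then 2 * σ else 0) else if y = 0 then -2 * σ else 4 * σ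

theorem zmod2_cases (a : ZMod 2) : a = 0 ∨ a = 1 := by revert a; decide

theorem factor_eq (w : Bool) (y a : ZMod 2) :
    (∑ u : Bool, if Ok u y a then kv w u else 0) =
    TrivSqZeroExt.inl (fa y a) + TrivSqZeroExt.inr (fb (sgn w : ℂ) y a) := by
  rw [Fintype.sum_bool]
  unfold Ok kv fa fb
  rcases zmod2_cases a with rfl | rfl <;> rcases zmod2_cases y with rfl | rfl
  · simp only [Bool.false_eq_true, if_true, if_false]
    refine TrivSqZeroExt.ext ?_ ?_
    · simp
    · simp; ring
  · simp
  · simp
  · simp

theorem prod_du {ι : Type} [DecidableEq ι] (s : Finset ι) (a b : ι → ℂ) :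
    ∏ k ∈ s, (TrivSqZeroExt.inl (a k) + TrivSqZeroExt.inr (b k) : Du) =
    TrivSqZeroExt.inl (∏ k ∈ s, a k) +
      TrivSqZeroExt.inr (∑ j ∈ s, b j * ∏ k ∈ s.erase j, a k) := by
  induction s using Finset.induction_on with
  | empty =>
    refine TrivSqZeroExt.ext ?_ ?_ <;> simp
  | insert i s hi ih =>
    rw [Finset.prod_insert hi, ih, Finset.prod_insert hi, Finset.sum_insert hi,
      Finset.erase_insert hi]
    have h : ∀ j ∈ s, b j * ∏ k ∈ (insert i s).erase j, a k =
        a i * (b j * ∏ k ∈ s.erase j, a k) := by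
      intro j hj
      have hij : i ≠ j := fun h => hi (h ▸ hj)
      rw [Finset.erase_insert_of_ne hij, Finset.prod_insert
        (fun h => hi (Finset.mem_of_mem_erase h))]
      ring
    rw [Finset.sum_congr rfl h, ← Finset.mul_sum]
    refine TrivSqZeroExt.ext ?_ ?_
    · simp
    · simp
      ring

/-- the sign character of `ZMod 2` -/
noncomputable def ch (a : ZMod 2) : ℂ := if a = 0 then 1 else -1

theorem ch_add (a b : ZMod 2) : ch (a + b) = ch a * ch b := by
  unfold ch
  rcases zmod2_cases a with rfl | rfl <;> rcases zmod2_cases b with rfl | rfl <;>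
  simp
  have h : (1 : ZMod 2) + 1 = 0 := by decide
  simp [h]

theorem ch_sum {ι : Type} (s : Finset ι) (f : ι → ZMod 2) :
    ch (∑ k ∈ s, f k) = ∏ k ∈ s, ch (f k) := by
  classical
  induction s using Finset.induction_on with
  | empty => simp [ch]
  | insert i s hi ih => rw [Finset.sum_insert hi, Finset.prod_insert hi, ch_add, ih]

/-- the interlacement form is alternating -/
theorem form_zero (G : GaussWord N) (x : Fin N → ZMod 2) : ∑ k, x k * q G x k = 0 := by
  classical
  have h1 : ∑ k, x k * q G x k =
      ∑ p : Fin N × Fin N, if Crosses G p.1 p.2 then x p.1 * x p.2 else 0 := by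
    rw [Fintype.sum_prod_type]
    refine Finset.sum_congr rfl fun k _ => ?_
    unfold q
    rw [Finset.mul_sum]
    refine Finset.sum_congr rfl fun j _ => ?_
    split_ifs <;> simp
  rw [h1]
  refine Finset.sum_involution (fun p _ => (p.2, p.1)) ?_ ?_ ?_ ?_
  · rintro ⟨k, j⟩ _
    by_cases h : Crosses G k j
    · have h' := crosses_symm G k j h
      simp only
      rw [if_pos h, if_pos h', mul_comm (x j), two_zero]
    · have h' : ¬ Crosses G j k := fun h'' => h (crosses_symm G j k h'')
      simp only
      rw [if_neg h, if_neg h', add_zero]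
  · rintro ⟨k, j⟩ _ hne heq
    simp only [Prod.mk.injEq] at heq
    obtain ⟨rfl, _⟩ := heq
    exact hne (if_neg (not_crosses_self G _))
  · intro p _
    exact Finset.mem_univ _
  · rintro ⟨k, j⟩ _
    rfl

theorem phi_f (G : GaussWord N) (hN : 0 < N) (w : Fin N → Bool) :
    phi (fPoly G w) = ∑ x : Fin N → ZMod 2, ∏ k,
      (TrivSqZeroExt.inl (fa (q G x k) (x k)) +
        TrivSqZeroExt.inr (fb (sgn (w k) : ℂ) (q G x k) (x k)) : Du) := by
  rw [fPoly_eq, map_sum]
  have h1 : ∀ s ∈ (univ : Finset (Fin N → Bool)),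
      phi ((∏ k, kap (w k) (s k)) * dl ^ (loops G s - 1)) =
      (∏ k, kv (w k) (s k)) * (((univ : Finset (Fin N → ZMod 2)).filter
        (fun x => ∀ k, Ok (s k) (q G x k) (x k))).card : Du) := by
    intro s _
    rw [map_mul, map_prod, map_pow, phi_dl]
    congr 1
    · exact Finset.prod_congr rfl fun k _ => phi_kap _ _
    · rw [← (two_pow_loops_sub G hN s).2]
      push_cast
      rfl
  rw [Finset.sum_congr rfl h1, sum_states G (fun k u => kv (w k) u)]
  refine Finset.sum_congr rfl fun x _ => Finset.prod_congr rfl fun k _ => ?_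
  exact factor_eq _ _ _

/-- the number of chords crossing the chord `c`, modulo 2 -/
noncomputable def par (G : GaussWord N) (c : Fin N) : ZMod 2 := q G (fun _ => 1) c

theorem par_update (G : GaussWord N) (c : Fin N) :
    q G (Function.update (fun _ => 1) c 0) c = par G c := by
  unfold par q
  refine Finset.sum_congr rfl fun j _ => ?_
  by_cases hj : j = c
  · subst hj
    rw [if_neg (not_crosses_self G _), if_neg (not_crosses_self G _)]
  · rw [Function.update_of_ne hj]

theorem prod_one (G : GaussWord N) (j : Fin N) :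
    ∏ k ∈ univ.erase j, fa (q G (fun _ => 1) k) 1 = ch (par G j) := by
  have h1 : ∀ k ∈ univ.erase j, fa (q G (fun _ => 1) k) 1 = ch (q G (fun _ => 1) k) := by
    intro k _
    unfold fa ch
    rw [if_neg (by decide)]
  rw [Finset.prod_congr rfl h1, ← ch_sum]
  congr 1
  have h2 := form_zero G (fun _ => 1)
  simp only [one_mul] at h2
  rw [← Finset.add_sum_erase _ _ (Finset.mem_univ j)] at h2
  unfold par
  have h3 : ∀ a b : ZMod 2, a + b = 0 → b = a := by decide
  exact h3 _ _ h2

theorem prod_upd (G : GaussWord N) (j : Fin N) :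
    ∏ k ∈ univ.erase j, fa (q G (Function.update (fun _ => 1) j 0) k)
      (Function.update (fun _ => (1 : ZMod 2)) j 0 k) = 1 := by
  have h1 : ∀ k ∈ univ.erase j, fa (q G (Function.update (fun _ => 1) j 0) k)
      (Function.update (fun _ => (1 : ZMod 2)) j 0 k) =
      ch (q G (Function.update (fun _ => 1) j 0) k) := by
    intro k hk
    rw [Finset.mem_erase] at hk
    rw [Function.update_of_ne hk.1]
    unfold fa ch
    rw [if_neg (by decide)]
  rw [Finset.prod_congr rfl h1, ← ch_sum]
  have h2 := form_zero G (Function.update (fun _ => 1) j 0)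
  rw [← Finset.add_sum_erase _ _ (Finset.mem_univ j), Function.update_self, zero_mul,
    zero_add] at h2
  have h3 : ∑ k ∈ univ.erase j, q G (Function.update (fun _ => 1) j 0) k = 0 := by
    refine Eq.trans ?_ h2
    refine Finset.sum_congr rfl fun k hk => ?_
    rw [Finset.mem_erase] at hk
    rw [Function.update_of_ne hk.1, one_mul]
  rw [h3]
  simp [ch]

theorem term_sum (G : GaussWord N) (σ : ℂ) (j : Fin N) :
    ∑ x : Fin N → ZMod 2, fb σ (q G x j) (x j) * ∏ k ∈ univ.erase j, fa (q G x k) (x k) =
    if par G j = 0 then 0 else -4 * σ := by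
  classical
  have hne : (fun _ => 1 : Fin N → ZMod 2) ≠ Function.update (fun _ => 1) j 0 := by
    intro h
    have := congrFun h j
    rw [Function.update_self] at this
    exact absurd this (by decide)
  rw [Fintype.sum_eq_add (fun _ => 1 : Fin N → ZMod 2) (Function.update (fun _ => 1) j 0) hne]
  · rw [prod_one, prod_upd, Function.update_self, par_update]
    show fb σ (par G j) 1 * ch (par G j) + fb σ (par G j) 0 * 1 = _
    unfold fb ch
    rcases zmod2_cases (par G j) with h | h
    · rw [h]; simp
    · rw [h]; simp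
  · rintro x ⟨h1, h2⟩
    by_cases hx : ∀ k, k ≠ j → x k = 1
    · exfalso
      rcases zmod2_cases (x j) with h | h
      · apply h2
        funext k
        by_cases hk : k = j
        · subst hk; rw [Function.update_self, h]
        · rw [Function.update_of_ne hk, hx k hk]
      · apply h1
        funext k
        by_cases hk : k = j
        · subst hk; exact h
        · exact hx k hk
    · push Not at hx
      obtain ⟨k, hk, hxk⟩ := hx
      have h3 : x k = 0 := by
        rcases zmod2_cases (x k) with h | h
        · exact h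
        · exact absurd h hxk
      rw [Finset.prod_eq_zero (Finset.mem_erase.2 ⟨hk, Finset.mem_univ k⟩), mul_zero]
      unfold fa
      rw [if_pos h3]

/-- **The derivative at `A = i` is the odd writhe.** -/
theorem deriv_f (G : GaussWord N) (w : Fin N → Bool) :
    ∑ k ∈ (fPoly G w).coeff.support, (k : ℂ) * ((fPoly G w).coeff k : ℂ) * Complex.I ^ k =
    -4 * ∑ c, (if par G c = 0 then 0 else (sgn (w c) : ℂ)) := by
  rw [← phi_snd]
  rcases Nat.eq_zero_or_pos N with rfl | hN
  · have h1 : fPoly G w = 1 := by
      rw [fPoly_eq]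
      rw [Fintype.sum_unique]
      have h2 : ∀ s : Fin 0 → Bool, loops G s - 1 = 0 := by
        intro s
        have : loops G s = 0 := by
          unfold loops
          have : IsEmpty (Quot (Joined G s)) := by
            constructor
            intro y
            induction y using Quot.ind with
            | _ y => exact y.1.1.elim0
          exact Nat.card_of_isEmpty
        rw [this]
      rw [h2]
      simp
    rw [h1, map_one]
    simp
  · rw [phi_f G hN, TrivSqZeroExt.snd_sum]
    have h1 : ∀ x ∈ (univ : Finset (Fin N → ZMod 2)), TrivSqZeroExt.snd (∏ k,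
      (TrivSqZeroExt.inl (fa (q G x k) (x k)) +
        TrivSqZeroExt.inr (fb (sgn (w k) : ℂ) (q G x k) (x k)) : Du)) =
        ∑ j, fb (sgn (w j) : ℂ) (q G x j) (x j) * ∏ k ∈ univ.erase j, fa (q G x k) (x k) := by
      intro x _
      rw [prod_du]
      simp
    rw [Finset.sum_congr rfl h1, Finset.sum_comm, Finset.mul_sum]
    refine Finset.sum_congr rfl fun j _ => ?_
    rw [term_sum]
    split_ifs <;> simp

end Pool.Agent.H124R3.OW
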