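import Pool.Agent.H124R3.OW.Deriv

set_option autoImplicit false

/-!
# Odd crossings, the number of choices of the crossings, and diagrams with crossings of one sign
-/

namespace Pool.Agent.H124R3.OW

open Pool.Agent.H832R2.JR Finset LaurentPolynomial

variable {N : ℕ}

/-- the crossing `c` is odd: the number of chords which cross the chord of `c` is odd (in other
words: between the two passages of `c` one meets an odd number of passages of other crossings) -/
def OddCrossing (G : GaussWord N) (c : Fin N) : Prop := Odd (Nat.card {i : Fin N // Crosses G c i})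

open Classical in
/-- the odd writhe (Kauffman): the sum of the signs of the odd crossings -/
noncomputable def oddWrithe (G : GaussWord N) (w : Fin N → Bool) : ℤ :=
  ∑ c, if OddCrossing G c then sgn (w c) else 0

/-- the number of odd crossings -/
noncomputable def numOdd (G : GaussWord N) : ℕ := Nat.card {c : Fin N // OddCrossing G c}

theorem par_iff (G : GaussWord N) (c : Fin N) : par G c = 0 ↔ ¬ OddCrossing G c := by
  classical
  have h1 : par G c = ((Nat.card {i : Fin N // Crosses G c i} : ℕ) : ZMod 2) := by
    unfold par q
    rw [Nat.card_eq_fintype_card, Fintype.card_subtype, Finset.card_filter]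
    push_cast
    rfl
  rw [h1, ZMod.natCast_eq_zero_iff_even]
  unfold OddCrossing
  rw [Nat.not_odd_iff_even]

theorem deriv_odd (G : GaussWord N) (w : Fin N → Bool) :
    ∑ k ∈ (fPoly G w).coeff.support, (k : ℂ) * ((fPoly G w).coeff k : ℂ) * Complex.I ^ k =
    -4 * (oddWrithe G w : ℂ) := by
  rw [deriv_f]
  unfold oddWrithe
  push_cast
  congr 1
  refine Finset.sum_congr rfl fun c _ => ?_
  by_cases h : OddCrossing G c
  · rw [if_pos h, if_neg (fun h' => (par_iff G c).1 h' h)]
  · rw [if_neg h, if_pos ((par_iff G c).2 h)]

theorem odd_of_eq (G : GaussWord N) (w : Fin N → Bool) {N' : ℕ} (G' : GaussWord N')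
    (w' : Fin N' → Bool) (h : fPoly G w = fPoly G' w') : oddWrithe G w = oddWrithe G' w' := by
  have h1 := deriv_odd G w
  rw [h, deriv_odd G' w'] at h1
  have h2 : (oddWrithe G' w' : ℂ) = (oddWrithe G w : ℂ) := by
    have h3 : (-4 : ℂ) ≠ 0 := by norm_num
    exact mul_left_cancel₀ h3 h1
  exact_mod_cast h2.symm

theorem odd_of_one (G : GaussWord N) (w : Fin N → Bool) (h : fPoly G w = 1) :
    oddWrithe G w = 0 := by
  have h1 := deriv_f G w
  rw [← phi_snd, h, map_one] at h1
  have h2 := deriv_odd G w
  rw [← phi_snd, h, map_one] at h2
  have h3 : (-4 : ℂ) * (oddWrithe G w : ℂ) = 0 := by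
    rw [← h2]; simp
  have h4 : (oddWrithe G w : ℂ) = 0 := by
    rcases mul_eq_zero.1 h3 with h | h
    · norm_num at h
    · exact h
  exact_mod_cast h4

open Classical in
theorem oddWrithe_eq (G : GaussWord N) (w : Fin N → Bool) :
    oddWrithe G w = 2 * (((univ.filter fun c => OddCrossing G c).filter fun c => w c = true).card : ℤ) -
      (univ.filter fun c => OddCrossing G c).card := by
  unfold oddWrithe
  rw [← Finset.sum_filter, Finset.card_filter, Finset.card_eq_sum_ones]
  push_cast
  rw [Finset.mul_sum, ← Finset.sum_sub_distrib]
  refine Finset.sum_congr rfl fun c _ => ?_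
  cases w c <;> simp [sgn]

theorem count_le (G : GaussWord N) (F : ℤ[T;T⁻¹]) :
    Nat.card {w : Fin N → Bool // fPoly G w = F} ≤
      2 ^ (N - numOdd G) * (numOdd G).choose (numOdd G / 2) := by
  classical
  rw [Nat.card_eq_fintype_card, Fintype.card_subtype]
  set S : Finset (Fin N) := univ.filter fun c => OddCrossing G c with hS
  have hm : numOdd G = S.card := by
    unfold numOdd
    rw [Nat.card_eq_fintype_card, Fintype.card_subtype]
  rw [hm]
  by_cases hex : ∃ w0 : Fin N → Bool, fPoly G w0 = F
  · obtain ⟨w0, hw0⟩ := hex
    set t := (S.filter fun c => w0 c = true).card with ht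
    have hcard : ∀ w : Fin N → Bool, fPoly G w = F →
        (S.filter fun c => w c = true).card = t := by
      intro w hw
      have h1 := odd_of_eq G w G w0 (hw.trans hw0.symm)
      rw [oddWrithe_eq, oddWrithe_eq] at h1
      rw [ht, hS]
      omega
    calc (univ.filter fun w : Fin N → Bool => fPoly G w = F).card
        ≤ (Finset.powersetCard t S ×ˢ (Sᶜ).powerset).card := by
          refine Finset.card_le_card_of_injOn
            (fun w => (S.filter fun c => w c = true, (Sᶜ).filter fun c => w c = true)) ?_ ?_
          · intro w hw
            rw [Finset.mem_coe, Finset.mem_filter] at hw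
            rw [Finset.mem_coe, Finset.mem_product, Finset.mem_powersetCard, Finset.mem_powerset]
            exact ⟨⟨Finset.filter_subset _ _, hcard w hw.2⟩, Finset.filter_subset _ _⟩
          · intro w _ w' _ hww
            simp only [Prod.mk.injEq] at hww
            funext c
            have key : (w c = true) ↔ (w' c = true) := by
              by_cases hc : c ∈ S
              · have h1 : c ∈ S.filter (fun c => w c = true) ↔
                    c ∈ S.filter (fun c => w' c = true) := by rw [hww.1]
                rw [Finset.mem_filter (s := S), Finset.mem_filter (s := S)] at h1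
                exact ⟨fun h => (h1.1 ⟨hc, h⟩).2, fun h => (h1.2 ⟨hc, h⟩).2⟩
              · have hc' : c ∈ Sᶜ := Finset.mem_compl.2 hc
                have h1 : c ∈ (Sᶜ).filter (fun c => w c = true) ↔
                    c ∈ (Sᶜ).filter (fun c => w' c = true) := by rw [hww.2]
                rw [Finset.mem_filter, Finset.mem_filter] at h1
                exact ⟨fun h => (h1.1 ⟨hc', h⟩).2, fun h => (h1.2 ⟨hc', h⟩).2⟩
            exact Bool.eq_iff_iff.2 key
      _ = S.card.choose t * 2 ^ (N - S.card) := by
          rw [Finset.card_product, Finset.card_powersetCard, Finset.card_powerset,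
            Finset.card_compl, Fintype.card_fin]
      _ ≤ 2 ^ (N - S.card) * S.card.choose (S.card / 2) := by
          rw [mul_comm]
          exact Nat.mul_le_mul_left _ (Nat.choose_le_middle _ _)
  · push Not at hex
    rw [Finset.filter_false_of_mem (fun w _ => hex w)]
    simp

/-- if no two chords cross then `f = 1` -/
theorem one_of_planar (G : GaussWord N) (w : Fin N → Bool) (h : ∀ i j, ¬ Crosses G i j) :
    fPoly G w = 1 := by
  classical
  rw [fPoly_eq]
  have hq : ∀ x k, q G x k = 0 := by
    intro x k
    unfold q
    exact Finset.sum_eq_zero fun j _ => if_neg (h k j)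
  have hl : ∀ s : Fin N → Bool, dl ^ (loops G s - 1) =
      ∏ k, (if s k = true then dl else 1) := by
    intro s
    rcases Nat.eq_zero_or_pos N with rfl | hN
    · have : loops G s = 0 := by
        unfold loops
        have : IsEmpty (Quot (Joined G s)) := by
          constructor
          intro y
          induction y using Quot.ind with
          | _ y => exact y.1.1.elim0
        exact Nat.card_of_isEmpty
      rw [this]
      simp
    · have h1 := (two_pow_loops_sub G hN s).2
      have h2 : ((univ : Finset (Fin N → ZMod 2)).filter
          (fun x => ∀ k, Ok (s k) (q G x k) (x k))).card =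
          2 ^ (univ.filter fun k => s k = true).card := by
        have h3 : (univ : Finset (Fin N → ZMod 2)).filter
            (fun x => ∀ k, Ok (s k) (q G x k) (x k)) =
            Fintype.piFinset (fun k => if s k = true then univ else {0}) := by
          ext x
          rw [Finset.mem_filter, Fintype.mem_piFinset]
          constructor
          · rintro ⟨_, hx⟩ k
            have h4 := hx k
            rw [hq] at h4
            unfold Ok at h4
            cases hs : s k
            · rw [hs] at h4
              simp only [Bool.false_eq_true, if_false] at h4 ⊢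
              rw [Finset.mem_singleton, ← h4]
            · simp
          · intro hx
            refine ⟨Finset.mem_univ _, fun k => ?_⟩
            have h4 := hx k
            rw [hq]
            unfold Ok
            cases hs : s k
            · rw [hs] at h4
              simp only [Bool.false_eq_true, if_false, Finset.mem_singleton] at h4 ⊢
              exact h4.symm
            · simp
        rw [h3, Fintype.card_piFinset, ← Finset.prod_const, Finset.prod_filter]
        refine Finset.prod_congr rfl fun k _ => ?_
        cases s k <;> simp [ZMod.card]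
      rw [h2] at h1
      have h5 : loops G s - 1 = (univ.filter fun k => s k = true).card :=
        Nat.pow_right_injective (le_refl 2) h1
      rw [h5, ← Finset.prod_const, Finset.prod_filter]
  have h6 : ∀ s ∈ (univ : Finset (Fin N → Bool)), (∏ k, kap (w k) (s k)) * dl ^ (loops G s - 1) =
      ∏ k, (kap (w k) (s k) * (if s k = true then dl else 1)) := by
    intro s _
    rw [hl, Finset.prod_mul_distrib]
  rw [Finset.sum_congr rfl h6]
  have h7 := Finset.prod_univ_sum (fun _ : Fin N => (univ : Finset Bool))
    (fun k u => kap (w k) u * (if u = true then dl else 1))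
  rw [Fintype.piFinset_univ] at h7
  rw [← h7]
  refine Finset.prod_eq_one fun k _ => ?_
  rw [Fintype.sum_bool]
  unfold kap dl
  cases w k
  · simp only [if_true, Bool.false_eq_true, if_false, mul_one]
    rw [show -2 * sgn false = 2 from rfl, show -4 * sgn false = 4 from rfl]
    have e1 : (T 2 : ℤ[T;T⁻¹]) * T 2 = T 4 := by rw [← T_add]; rfl
    have e2 : (T 2 : ℤ[T;T⁻¹]) * T (-2) = 1 := by rw [← T_add]; exact T_zero
    linear_combination e1 + e2
  · simp only [if_true, Bool.false_eq_true, if_false, mul_one]
    rw [show -2 * sgn true = -2 from rfl, show -4 * sgn true = -4 from rfl]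
    have e1 : (T (-2) : ℤ[T;T⁻¹]) * T (-2) = T (-4) := by rw [← T_add]; rfl
    have e2 : (T (-2) : ℤ[T;T⁻¹]) * T 2 = 1 := by rw [← T_add]; exact T_zero
    linear_combination e1 + e2

theorem genus_bound (G : GaussWord N) (hN : 0 < N) (w : Fin N → Bool) (h : fPoly G w = 1) :
    N + 1 ≤ loops G (fun _ => true) + 4 * min (npos w) (nneg w) := by
  have h1 : (fPoly G w).coeff 0 ≠ 0 := by
    rw [h, ← T_zero, T_apply, if_pos rfl]
    norm_num
  have h2 := coeff_bound G hN w 0 h1
  omega

theorem one_sign (G : GaussWord N) (w : Fin N → Bool)
    (hw : (∀ c, w c = true) ∨ (∀ c, w c = false)) :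
    fPoly G w = 1 ↔ ∀ i j, ¬ Crosses G i j := by
  classical
  refine ⟨fun h => ?_, one_of_planar G w⟩
  intro i j hij
  have hN : 0 < N := lt_of_le_of_lt (Nat.zero_le _) i.2
  have h1 := genus_bound G hN w h
  have h2 : min (npos w) (nneg w) = 0 := by
    rcases hw with hw | hw
    · have : nneg w = 0 := by
        unfold nneg
        rw [Finset.card_eq_zero, Finset.filter_eq_empty_iff]
        intro k _ hk
        rw [hw k] at hk
        exact absurd hk (by decide)
      rw [this, Nat.min_zero]
    · have : npos w = 0 := by
        unfold npos
        rw [Finset.card_eq_zero, Finset.filter_eq_empty_iff]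
        intro k _ hk
        rw [hw k] at hk
        exact absurd hk (by decide)
      rw [this, Nat.zero_min]
  rw [h2, mul_zero, add_zero] at h1
  have h3 := (two_pow_loops_sub G hN (fun _ => true)).2
  have h4 : 2 ^ N ≤ 2 ^ (loops G (fun _ => true) - 1) :=
    Nat.pow_le_pow_right (by norm_num) (by omega)
  rw [h3] at h4
  have h5 : (univ : Finset (Fin N → ZMod 2)).card = 2 ^ N := by
    rw [Finset.card_univ, Fintype.card_fun, ZMod.card, Fintype.card_fin]
  have h6 : (univ : Finset (Fin N → ZMod 2)).filter (fun x => ∀ k, Ok true (q G x k) (x k)) =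
      univ := Finset.eq_of_subset_of_card_le (Finset.filter_subset _ _) (by rw [h5]; exact h4)
  have h7 : ∀ k, Ok true (q G (Pi.single j 1) k) ((Pi.single j 1 : Fin N → ZMod 2) k) := by
    have h7' := Finset.mem_univ (Pi.single j 1 : Fin N → ZMod 2)
    rw [← h6, Finset.mem_filter] at h7'
    exact h7'.2
  have h8 : q G (Pi.single j 1) i = 0 := h7 i
  have h9 : q G (Pi.single j 1) i = 1 := by
    unfold q
    rw [Finset.sum_eq_single j]
    · rw [if_pos hij, Pi.single_eq_same]
    · intro k _ hk
      rw [Pi.single_eq_of_ne hk]
      split_ifs <;> rfl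
    · intro hj
      exact absurd (Finset.mem_univ j) hj
  rw [h9] at h8
  exact absurd h8 (by decide)

end Pool.Agent.H124R3.OW
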