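import Pool.Agent.H124R3.OW.Count

set_option autoImplicit false

/-!
# The f-polynomial as a sum of products over the crossings
-/

namespace Pool.Agent.H124R3.OW

open Pool.Agent.H832R2.JR Finset LaurentPolynomial

variable {N : ℕ}

/-- the factor of a crossing with sign `w` smoothed in the oriented (`u = true`) or unoriented
way -/
noncomputable def kap (w u : Bool) : ℤ[T;T⁻¹] := if u then -T (-2 * sgn w) else -T (-4 * sgn w)

/-- the loop value -/
noncomputable def dl : ℤ[T;T⁻¹] := -T 2 - T (-2)

theorem prod_T {ι : Type} (s : Finset ι) (f : ι → ℤ) :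
    ∏ k ∈ s, (-T (f k) : ℤ[T;T⁻¹]) = (-1) ^ s.card * T (∑ k ∈ s, f k) := by
  classical
  induction s using Finset.induction_on with
  | empty => simp
  | insert a s ha ih =>
    rw [Finset.prod_insert ha, ih, Finset.card_insert_of_notMem ha, Finset.sum_insert ha, T_add,
      pow_succ]
    ring

theorem kap_eq (w u : Bool) : kap w u = -T (-3 * sgn w + sgn w * sgn u) := by
  unfold kap
  cases u
  · simp only [Bool.false_eq_true, if_false]
    rw [show sgn false = -1 from rfl]
    congr 2; ring
  · simp only [if_true]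
    rw [show sgn true = 1 from rfl]
    congr 2; ring

theorem sgn_parity (b : Bool) : sgn b % 2 = 1 := by cases b <;> rfl

theorem writhe_parity (w : Fin N → Bool) : (writhe w - N) % 2 = 0 := by
  unfold writhe
  have h : (∑ c, sgn (w c)) - (N : ℤ) = ∑ c : Fin N, (sgn (w c) - 1) := by
    rw [Finset.sum_sub_distrib]; simp
  rw [h]
  have h2 : (2 : ℤ) ∣ ∑ c : Fin N, (sgn (w c) - 1) := by
    refine Finset.dvd_sum fun c _ => ?_
    cases w c
    · exact ⟨-1, rfl⟩
    · exact ⟨0, rfl⟩
  omega

theorem sign_eq (w : Fin N → Bool) :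
    (if Even (writhe w) then (1 : ℤ[T;T⁻¹]) else -1) = (-1) ^ N := by
  have h := writhe_parity w
  split_ifs with h1
  · rw [Even.neg_one_pow]
    rw [Int.even_iff] at h1
    rw [Nat.even_iff]
    omega
  · rw [Odd.neg_one_pow]
    rw [Int.even_iff] at h1
    rw [Nat.odd_iff]
    omega

theorem fPoly_eq (G : GaussWord N) (w : Fin N → Bool) :
    fPoly G w = ∑ s : Fin N → Bool, (∏ k, kap (w k) (s k)) * dl ^ (loops G s - 1) := by
  unfold fPoly bracket
  rw [sign_eq, Finset.mul_sum]
  refine Finset.sum_congr rfl fun s _ => ?_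
  have h1 : (∏ k, kap (w k) (s k)) = (-1) ^ N * T (-3 * writhe w + weight w s) := by
    have h2 : ∀ k ∈ (univ : Finset (Fin N)), kap (w k) (s k) =
        -T (-3 * sgn (w k) + sgn (w k) * sgn (s k)) := fun k _ => kap_eq _ _
    rw [Finset.prod_congr rfl h2, prod_T]
    unfold writhe weight
    rw [Finset.sum_add_distrib, ← Finset.mul_sum]
    simp
  rw [h1, T_add]
  unfold dl
  ring

/-- exchange of the sum over the states and the solutions of the linear systems -/
theorem sum_states {R : Type} [CommRing R] (G : GaussWord N) (κ : Fin N → Bool → R) :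
    ∑ s : Fin N → Bool, (∏ k, κ k (s k)) * (((univ : Finset (Fin N → ZMod 2)).filter
      (fun x => ∀ k, Ok (s k) (q G x k) (x k))).card : R) =
    ∑ x : Fin N → ZMod 2, ∏ k, ∑ u : Bool, if Ok u (q G x k) (x k) then κ k u else 0 := by
  classical
  have h1 : ∀ s : Fin N → Bool, (∏ k, κ k (s k)) * (((univ : Finset (Fin N → ZMod 2)).filter
      (fun x => ∀ k, Ok (s k) (q G x k) (x k))).card : R) =
      ∑ x : Fin N → ZMod 2, ∏ k, (if Ok (s k) (q G x k) (x k) then κ k (s k) else 0) := by
    intro s
    rw [Finset.card_filter, Nat.cast_sum, Finset.mul_sum]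
    refine Finset.sum_congr rfl fun x _ => ?_
    by_cases hx : ∀ k, Ok (s k) (q G x k) (x k)
    · rw [if_pos hx, Nat.cast_one, mul_one]
      refine Finset.prod_congr rfl fun k _ => ?_
      rw [if_pos (hx k)]
    · rw [if_neg hx, Nat.cast_zero, mul_zero]
      push Not at hx
      obtain ⟨k, hk⟩ := hx
      exact (Finset.prod_eq_zero (Finset.mem_univ k) (if_neg hk)).symm
  rw [Finset.sum_congr rfl fun s _ => h1 s, Finset.sum_comm]
  refine Finset.sum_congr rfl fun x _ => ?_
  rw [Finset.prod_univ_sum, Fintype.piFinset_univ]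

theorem ok_zero (u : Bool) : Ok u 0 0 := by
  unfold Ok; simp

theorem q_zero (G : GaussWord N) (k : Fin N) : q G 0 k = 0 := by
  unfold q; simp

theorem card_pos (G : GaussWord N) (s : Fin N → Bool) :
    0 < ((univ : Finset (Fin N → ZMod 2)).filter
      (fun x => ∀ k, Ok (s k) (q G x k) (x k))).card := by
  refine Finset.card_pos.2 ⟨0, ?_⟩
  rw [Finset.mem_filter]
  refine ⟨Finset.mem_univ _, fun k => ?_⟩
  rw [q_zero]
  exact ok_zero _

theorem two_pow_loops_sub (G : GaussWord N) (hN : 0 < N) (s : Fin N → Bool) :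
    1 ≤ loops G s ∧ 2 ^ (loops G s - 1) = ((univ : Finset (Fin N → ZMod 2)).filter
      (fun x => ∀ k, Ok (s k) (q G x k) (x k))).card := by
  have h1 := two_pow_loops G hN s
  have h2 := card_pos G s
  have h3 : 1 ≤ loops G s := by
    by_contra h
    have h4 : loops G s = 0 := by omega
    rw [h4, pow_zero] at h1
    omega
  refine ⟨h3, ?_⟩
  obtain ⟨n, hn⟩ := Nat.exists_eq_add_of_le' h3
  rw [hn, pow_succ] at h1
  rw [hn, Nat.add_sub_cancel]
  omega

/-- the number of curves changes by at most one when one smoothing is changed -/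
theorem loops_le (G : GaussWord N) (hN : 0 < N) (s : Fin N → Bool) :
    loops G s ≤ (univ.filter fun k => s k = false).card + loops G (fun _ => true) := by
  classical
  have h1 := two_pow_loops G hN s
  have h2 := two_pow_loops G hN (fun _ => true)
  set A := (univ : Finset (Fin N → ZMod 2)).filter (fun x => ∀ k, Ok (s k) (q G x k) (x k)) with hA
  set B := (univ : Finset (Fin N → ZMod 2)).filter (fun x => ∀ k, Ok true (q G x k) (x k)) with hB
  let f : (Fin N → ZMod 2) → ({k // s k = false} → ZMod 2) := fun x k => x k.1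
  have hq : ∀ x y : Fin N → ZMod 2, ∀ k, q G (x - y) k = q G x k - q G y k := by
    intro x y k
    unfold q
    rw [← Finset.sum_sub_distrib]
    refine Finset.sum_congr rfl fun j _ => ?_
    split_ifs <;> simp
  have h3 : A.card ≤ B.card * (A.image f).card := by
    refine Finset.card_le_mul_card_image A B.card ?_
    intro y hy
    obtain ⟨x0, hx0, rfl⟩ := Finset.mem_image.1 hy
    refine Finset.card_le_card_of_injOn (fun x => x - x0) ?_ ?_
    · intro x hx
      rw [Finset.mem_coe, Finset.mem_filter] at hx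
      obtain ⟨hx1, hx2⟩ := hx
      rw [hA, Finset.mem_filter] at hx1 hx0
      rw [Finset.mem_coe, hB, Finset.mem_filter]
      refine ⟨Finset.mem_univ _, fun k => ?_⟩
      show q G (x - x0) k = 0
      rw [hq]
      have a1 := hx1.2 k
      have a2 := hx0.2 k
      cases hs : s k
      · rw [hs] at a1 a2
        have a3 : q G x k = x k := a1
        have a4 : q G x0 k = x0 k := a2
        have a5 : x k = x0 k := congrFun hx2 ⟨k, hs⟩
        rw [a3, a4, a5, sub_self]
      · rw [hs] at a1 a2
        have a3 : q G x k = 0 := a1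
        have a4 : q G x0 k = 0 := a2
        rw [a3, a4, sub_self]
    · intro x _ y _ hxy
      exact sub_left_injective hxy
  have h4 : (A.image f).card ≤ 2 ^ (univ.filter fun k => s k = false).card := by
    refine (Finset.card_le_univ _).trans ?_
    rw [Fintype.card_fun, ZMod.card, Fintype.card_subtype]
  have h5 : 2 ^ loops G s ≤ 2 ^ ((univ.filter fun k => s k = false).card +
      loops G (fun _ => true)) := by
    rw [h1, pow_add, h2]
    calc 2 * A.card ≤ 2 * (B.card * 2 ^ (univ.filter fun k => s k = false).card) := by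
          refine Nat.mul_le_mul_left 2 (h3.trans (Nat.mul_le_mul_left _ h4))
      _ = 2 ^ (univ.filter fun k => s k = false).card * (2 * B.card) := by ring
  exact (Nat.pow_le_pow_iff_right (by norm_num)).1 h5

theorem coeff_mul_T (f : ℤ[T;T⁻¹]) (m e : ℤ) : (f * T m).coeff e = f.coeff (e - m) := by
  have h := AddMonoidAlgebra.coeff_mul_single_eq_coeff_mul (x := f) (m := m) (m₁ := e) (r := 1)
    (e - m) (by intro m' _; constructor <;> intro h <;> omega)
  rw [mul_one] at h
  exact h

/-- the support of the powers of the loop value -/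
theorem dl_pow_coeff (n : ℕ) (e : ℤ) (h : (dl ^ n).coeff e ≠ 0) : e ≤ 2 * n ∧ -(2 * n) ≤ e := by
  induction n generalizing e with
  | zero =>
    rw [pow_zero, ← T_zero, T_apply] at h
    split_ifs at h with h2
    · subst h2; simp
    · exact absurd rfl h
  | succ n ih =>
    have h1 : (dl ^ (n + 1)).coeff e = -((dl ^ n).coeff (e - 2)) - (dl ^ n).coeff (e - (-2)) := by
      rw [pow_succ]
      have e1 : dl ^ n * dl = -(dl ^ n * T 2) - dl ^ n * T (-2) := by
        rw [show dl = -T 2 - T (-2) from rfl]; ring
      rw [e1, AddMonoidAlgebra.coeff_sub, AddMonoidAlgebra.coeff_neg, Finsupp.sub_apply,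
        Finsupp.neg_apply, coeff_mul_T, coeff_mul_T]
    rw [h1] at h
    by_cases c1 : (dl ^ n).coeff (e - 2) = 0
    · by_cases c2 : (dl ^ n).coeff (e - (-2)) = 0
      · rw [c1, c2] at h; simp at h
      · have := ih _ c2
        push_cast
        omega
    · have := ih _ c1
      push_cast
      omega

/-- the exponent of the product of the crossing factors -/
def expo (w s : Fin N → Bool) : ℤ := ∑ k, (if s k then -2 * sgn (w k) else -4 * sgn (w k))

theorem prod_kap (w s : Fin N → Bool) :
    (∏ k, kap (w k) (s k)) = (-1) ^ N * T (expo w s) := by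
  have h : ∀ k ∈ (univ : Finset (Fin N)), kap (w k) (s k) =
      -T (if s k then -2 * sgn (w k) else -4 * sgn (w k)) := by
    intro k _
    unfold kap
    cases s k <;> rfl
  rw [Finset.prod_congr rfl h, prod_T]
  unfold expo
  simp

theorem exists_state (G : GaussWord N) (w : Fin N → Bool) (e : ℤ)
    (he : (fPoly G w).coeff e ≠ 0) : ∃ s : Fin N → Bool,
    e - expo w s ≤ 2 * ((loops G s - 1 : ℕ) : ℤ) ∧ -(2 * ((loops G s - 1 : ℕ) : ℤ)) ≤ e - expo w s := by
  rw [fPoly_eq, AddMonoidAlgebra.coeff_sum, Finsupp.finsetSum_apply] at he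
  obtain ⟨s, _, hs⟩ := Finset.exists_ne_zero_of_sum_ne_zero he
  refine ⟨s, dl_pow_coeff _ _ ?_⟩
  rw [prod_kap] at hs
  have e1 : (-1 : ℤ[T;T⁻¹]) ^ N * T (expo w s) * dl ^ (loops G s - 1) =
      ((-1) ^ N * dl ^ (loops G s - 1)) * T (expo w s) := by ring
  rw [e1, coeff_mul_T] at hs
  intro h
  apply hs
  rcases Nat.even_or_odd N with hN | hN
  · rw [hN.neg_one_pow, one_mul, h]
  · rw [hN.neg_one_pow, neg_one_mul, AddMonoidAlgebra.coeff_neg, Finsupp.neg_apply, h, neg_zero]

/-- number of positive crossings -/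
def npos (w : Fin N → Bool) : ℕ := (univ.filter fun k => w k = true).card
/-- number of negative crossings -/
def nneg (w : Fin N → Bool) : ℕ := (univ.filter fun k => w k = false).card

theorem npos_add (w : Fin N → Bool) : npos w + nneg w = N := by
  unfold npos nneg
  have h := Finset.card_filter_add_card_filter_not (s := (univ : Finset (Fin N)))
    (fun k => w k = true)
  simpa using h

theorem expo_bounds (w s : Fin N → Bool) :
    expo w s + 2 * (univ.filter fun k => s k = false).card ≤ -2 * npos w + 6 * nneg w ∧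
    -6 * (npos w : ℤ) + 2 * nneg w ≤ expo w s - 2 * (univ.filter fun k => s k = false).card := by
  have h1 : ((univ.filter fun k => s k = false).card : ℤ) = ∑ k, (if s k = false then 1 else 0) := by
    rw [Finset.card_filter]; push_cast; rfl
  have h2 : (npos w : ℤ) = ∑ k, (if w k = true then 1 else 0) := by
    unfold npos; rw [Finset.card_filter]; push_cast; rfl
  have h3 : (nneg w : ℤ) = ∑ k, (if w k = false then 1 else 0) := by
    unfold nneg; rw [Finset.card_filter]; push_cast; rfl
  rw [h1, h2, h3]
  unfold expo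
  rw [Finset.mul_sum, Finset.mul_sum, Finset.mul_sum, Finset.mul_sum, Finset.mul_sum,
    ← Finset.sum_add_distrib, ← Finset.sum_add_distrib, ← Finset.sum_sub_distrib,
    ← Finset.sum_add_distrib]
  constructor
  · refine Finset.sum_le_sum fun k _ => ?_
    cases w k <;> cases s k <;> simp [sgn]
  · refine Finset.sum_le_sum fun k _ => ?_
    cases w k <;> cases s k <;> simp [sgn]

/-- bounds for the exponents of `f` -/
theorem coeff_bound (G : GaussWord N) (hN : 0 < N) (w : Fin N → Bool) (e : ℤ)
    (he : (fPoly G w).coeff e ≠ 0) :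
    2 * ((N : ℤ) + 1) + e ≤ 2 * loops G (fun _ => true) + 8 * nneg w ∧
    2 * ((N : ℤ) + 1) - e ≤ 2 * loops G (fun _ => true) + 8 * npos w := by
  obtain ⟨s, hs1, hs2⟩ := exists_state G w e he
  have h1 := (two_pow_loops_sub G hN s).1
  have h2 := loops_le G hN s
  have h3 := expo_bounds w s
  have h4 := npos_add w
  rw [Nat.cast_sub h1] at hs1 hs2
  zify at h1 h2 h4
  push_cast at *
  constructor <;> linarith [h3.1, h3.2]

end Pool.Agent.H124R3.OW
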